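import Pool.Agent.Lib.MP_361a6f_ag.FL.E.DefsG
import Pool.Agent.Lib.MP_361a6f_ag.FL.Alg1

/-!
# The general form: combinations of endomorphisms preserve the span of the members
-/

set_option autoImplicit false
set_option linter.unusedSectionVars false

open Filter Topology

namespace Pool.Agent.Lib.MP_361a6f_ag.FL.E

namespace Slot

variable {I Λ : Type} [Fintype I] [DecidableEq I] [DecidableEq Λ] {D : Dat I Λ}
  {At : (L : ℕ) → Ten I L → Prop}

/-- a matrix acting on one slot -/
def sl (A : Matrix I I ℂ) {L : ℕ} (r : Fin L) (u : Ten I L) : Ten I L :=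
  fun w => ∑ j, A (w r) j * u (Function.update w r j)

theorem s_sq (i : I) : D.s i * D.s i = 1 := by
  rcases D.s_val i with h | h <;> rw [h] <;> norm_num

theorem cont_om (hty : ∀ i j, D.typ i = D.typ j) (ho : ∀ i, D.odd (D.typ i)) (i0 : I) {L : ℕ}
    (m : Ten I (2 + L)) (w : Fin L → I) :
    cont D (om D (D.typ i0)) m w = ∑ b, D.s b * m (Fin.append ![b, D.τ b] w) := by
  unfold cont om
  have h1 : ∀ w' : Fin 2 → I, sg D w' * ((if D.typ (w' 0) = D.typ i0 ∧ w' 1 = D.τ (w' 0) then
      D.s (w' 0) else 0) * m (Fin.append (D.τ ∘ w') w)) =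
      if w' 1 = D.τ (w' 0) then -D.s (w' 0) * m (Fin.append (D.τ ∘ w') w) else 0 := by
    intro w'
    by_cases h : w' 1 = D.τ (w' 0)
    · rw [if_pos ⟨hty _ _, h⟩, if_pos h, sg, Fin.prod_univ_two, h, (D.odd_τ _ (ho _)).2]
      linear_combination (-D.s (w' 0) * m (Fin.append (D.τ ∘ w') w)) * s_sq (D := D) (w' 0)
    · rw [if_neg h, if_neg fun h' => h h'.2, zero_mul, mul_zero]
  rw [Finset.sum_congr rfl fun w' _ => h1 w', ← Finset.sum_filter]
  refine (Finset.sum_bij (fun (b : I) _ => ![D.τ b, b]) ?_ ?_ ?_ ?_).symm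
  · intro b _
    rw [Finset.mem_filter]
    exact ⟨Finset.mem_univ _, (D.τ_τ b).symm⟩
  · intro a _ b _ h
    exact congrFun h 1
  · intro w' hw'
    have h2 := (Finset.mem_filter.1 hw').2
    refine ⟨w' 1, Finset.mem_univ _, ?_⟩
    funext i
    fin_cases i
    · change D.τ (w' 1) = w' 0
      rw [h2, D.τ_τ]
    · rfl
  · intro b _
    have h3 : (D.τ ∘ ![D.τ b, b]) = ![b, D.τ b] := by
      funext i
      fin_cases i
      · exact D.τ_τ b
      · rfl
    rw [h3]
    change D.s b * _ = -D.s (D.τ b) * _
    rw [(D.odd_τ b (ho b)).2, neg_neg]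

/-- one slot of the operator of a member of length two -/
theorem sl_eq (hty : ∀ i j, D.typ i = D.typ j) (ho : ∀ i, D.odd (D.typ i)) (i0 : I) {L : ℕ}
    (z : Ten I 2) (r : Fin L) (u : Ten I L) :
    sl (opM D z) r u = cont D (om D (D.typ i0))
      (permT (Equiv.swap (Fin.castAdd L (0 : Fin 2)) (Fin.natAdd 2 r)) (outer z u)) := by
  funext w
  rw [cont_om hty ho]
  unfold sl
  refine Finset.sum_congr rfl fun b _ => ?_
  have h1 : permT (Equiv.swap (Fin.castAdd L (0 : Fin 2)) (Fin.natAdd 2 r)) (outer z u)
      (Fin.append ![b, D.τ b] w) = z ![w r, D.τ b] * u (Function.update w r b) := by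
    unfold permT outer
    congr 1
    · congr 1
      funext i
      fin_cases i
      · change Fin.append ![b, D.τ b] w (Equiv.swap (Fin.castAdd L (0 : Fin 2)) (Fin.natAdd 2 r)
          (Fin.castAdd L (0 : Fin 2))) = w r
        rw [Equiv.swap_apply_left, Fin.append_right]
      · change Fin.append ![b, D.τ b] w (Equiv.swap (Fin.castAdd L (0 : Fin 2)) (Fin.natAdd 2 r)
          (Fin.castAdd L (1 : Fin 2))) = D.τ b
        rw [Equiv.swap_apply_of_ne_of_ne, Fin.append_left]
        · rfl
        · intro h
          have := congrArg Fin.val h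
          simp at this
        · intro h
          have := congrArg Fin.val h
          simp at this
          omega
    · congr 1
      funext i
      change Fin.append ![b, D.τ b] w (Equiv.swap (Fin.castAdd L (0 : Fin 2)) (Fin.natAdd 2 r)
          (Fin.natAdd 2 i)) = Function.update w r b i
      by_cases hi : i = r
      · subst hi
        rw [Equiv.swap_apply_right, Fin.append_left, Function.update_self]
        rfl
      · rw [Equiv.swap_apply_of_ne_of_ne, Fin.append_right, Function.update_of_ne hi]
        · intro h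
          have := congrArg Fin.val h
          simp at this
        · intro h
          apply hi
          have := congrArg Fin.val h
          simp at this
          exact Fin.ext this
  rw [h1]
  unfold opM
  ring

theorem sl_mem (S : ASys D At) (hty : ∀ i j, D.typ i = D.typ j) (ho : ∀ i, D.odd (D.typ i))
    {L : ℕ} {z : Ten I 2} (hz : At 2 z) (r : Fin L) {u : Ten I L} (hu : At L u) :
    At L (sl (opM D z) r u) := by
  by_cases hI : Nonempty I
  · obtain ⟨i0⟩ := hI
    rw [sl_eq hty ho i0]
    exact S.cont 2 L _ _ (S.om _) (S.perm _ _ _ (S.outer 2 L z u hz hu))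
  · have h : sl (opM D z) r u = 0 := by
      funext w
      exact absurd ⟨w r⟩ hI
    rw [h]
    exact S.zero L

theorem sl_add (A : Matrix I I ℂ) {L : ℕ} (r : Fin L) (u v : Ten I L) :
    sl A r (u + v) = sl A r u + sl A r v := by
  funext w
  simp only [sl, Pi.add_apply, mul_add, Finset.sum_add_distrib]

theorem sl_smul (A : Matrix I I ℂ) {L : ℕ} (r : Fin L) (c : ℂ) (u : Ten I L) :
    sl A r (c • u) = c • sl A r u := by
  funext w
  simp only [sl, Pi.smul_apply, smul_eq_mul, Finset.mul_sum]
  exact Finset.sum_congr rfl fun j _ => by ring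

theorem add_sl (A B : Matrix I I ℂ) {L : ℕ} (r : Fin L) (u : Ten I L) :
    sl (A + B) r u = sl A r u + sl B r u := by
  funext w
  simp only [sl, Pi.add_apply, Matrix.add_apply, add_mul, Finset.sum_add_distrib]

theorem smul_sl (c : ℂ) (A : Matrix I I ℂ) {L : ℕ} (r : Fin L) (u : Ten I L) :
    sl (c • A) r u = c • sl A r u := by
  funext w
  simp only [sl, Pi.smul_apply, Matrix.smul_apply, smul_eq_mul, Finset.mul_sum]
  exact Finset.sum_congr rfl fun j _ => by ring

theorem sl_span (S : ASys D At) (hty : ∀ i j, D.typ i = D.typ j) (ho : ∀ i, D.odd (D.typ i))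
    {C : Matrix I I ℂ} (hC : C ∈ endS D At) {L : ℕ} (r : Fin L) {u : Ten I L}
    (hu : u ∈ Submodule.span ℂ {u : Ten I L | At L u}) :
    sl C r u ∈ Submodule.span ℂ {u : Ten I L | At L u} := by
  induction hC using Submodule.span_induction with
  | mem M hM =>
    obtain ⟨z, hz, rfl⟩ := hM
    induction hu using Submodule.span_induction with
    | mem u hu => exact Submodule.subset_span (sl_mem S hty ho hz r hu)
    | zero =>
      have h := sl_smul (opM D z) r (0 : ℂ) (0 : Ten I L)
      rw [zero_smul, zero_smul] at h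
      rw [h]
      exact zero_mem _
    | add a b _ _ ha hb => rw [sl_add]; exact add_mem ha hb
    | smul c a _ ha => rw [sl_smul]; exact Submodule.smul_mem _ _ ha
  | zero =>
    have h := smul_sl (0 : ℂ) (0 : Matrix I I ℂ) r u
    rw [zero_smul, zero_smul] at h
    rw [h]
    exact zero_mem _
  | add A B _ _ hA hB => rw [add_sl]; exact add_mem hA hB
  | smul c A _ hA => rw [smul_sl]; exact Submodule.smul_mem _ _ hA

/-- a matrix acting on the slots in `T` -/
def gP (A : Matrix I I ℂ) {L : ℕ} (T : Finset (Fin L)) (u : Ten I L) : Ten I L :=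
  fun w => ∑ w' : Fin L → I,
    (∏ i, if i ∈ T then A (w i) (w' i) else if w i = w' i then 1 else 0) * u w'

theorem gP_empty (A : Matrix I I ℂ) {L : ℕ} (u : Ten I L) : gP A ∅ u = u := by
  funext w
  unfold gP
  rw [Finset.sum_eq_single w]
  · rw [Finset.prod_eq_one, one_mul]
    intro i _
    rw [if_neg (Finset.notMem_empty i), if_pos rfl]
  · intro w' _ hw'
    obtain ⟨i, hi⟩ : ∃ i, w i ≠ w' i := by
      by_contra h
      push Not at h
      exact hw' (funext fun i => (h i).symm)
    rw [Finset.prod_eq_zero (Finset.mem_univ i), zero_mul]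
    rw [if_neg (Finset.notMem_empty i), if_neg hi]
  · intro h
    exact absurd (Finset.mem_univ _) h

theorem gP_univ (A : Matrix I I ℂ) {L : ℕ} (u : Ten I L) : gP A Finset.univ u = gT A u := by
  funext w
  unfold gP gT
  refine Finset.sum_congr rfl fun w' _ => ?_
  congr 1
  exact Finset.prod_congr rfl fun i _ => if_pos (Finset.mem_univ i)

theorem gP_insert (A : Matrix I I ℂ) {L : ℕ} (T : Finset (Fin L)) (r : Fin L) (hr : r ∉ T)
    (u : Ten I L) : gP A (insert r T) u = sl A r (gP A T u) := by
  funext w
  unfold gP sl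
  simp only [Finset.mul_sum]
  rw [Finset.sum_comm]
  refine Finset.sum_congr rfl fun w' _ => ?_
  rw [Finset.sum_eq_single (w' r)]
  · rw [← mul_assoc]
    congr 1
    rw [← Finset.mul_prod_erase _ _ (Finset.mem_univ r),
      ← Finset.mul_prod_erase _ (fun i => if i ∈ T then
        A (Function.update w r (w' r) i) (w' i) else
          if Function.update w r (w' r) i = w' i then (1 : ℂ) else 0) (Finset.mem_univ r)]
    rw [if_pos (Finset.mem_insert_self r T), if_neg hr, Function.update_self, if_pos rfl, one_mul]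
    congr 1
    refine Finset.prod_congr rfl fun i hi => ?_
    have hir : i ≠ r := Finset.ne_of_mem_erase hi
    rw [Function.update_of_ne hir]
    simp only [Finset.mem_insert, hir, false_or]
  · intro j _ hj
    rw [Finset.prod_eq_zero (Finset.mem_univ r), zero_mul, mul_zero]
    rw [if_neg hr, Function.update_self, if_neg hj]
  · intro h
    exact absurd (Finset.mem_univ _) h

/-- **Combinations of endomorphisms preserve the span of the members.** -/
theorem gT_span (S : ASys D At) (hty : ∀ i j, D.typ i = D.typ j) (ho : ∀ i, D.odd (D.typ i))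
    {C : Matrix I I ℂ} (hC : C ∈ endS D At) {L : ℕ} {u : Ten I L}
    (hu : u ∈ Submodule.span ℂ {u : Ten I L | At L u}) :
    gT C u ∈ Submodule.span ℂ {u : Ten I L | At L u} := by
  rw [← gP_univ]
  induction (Finset.univ : Finset (Fin L)) using Finset.induction_on with
  | empty => rwa [gP_empty]
  | insert r T hr ih =>
    rw [gP_insert C T r hr]
    exact sl_span S hty ho hC r ih

end Slot

end Pool.Agent.Lib.MP_361a6f_ag.FL.E
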